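import Pool.Agent.Helper98.Lang.Defs
import Pool.Agent.Helper92.Field.Divisor

/-!
# P13: the average of Hooley's function over smooth numbers (MP_c307ca_nt)
-/

set_option autoImplicit false

open Finset

namespace Pool.Agent.Helper98.Lang

namespace RankAux

theorem pr_prime {a b p : ℕ} (h : p ∈ pr a b) : p.Prime := (mem_filter.1 h).2

theorem mem_pr0 {y p : ℕ} : p ∈ pr 0 y ↔ p.Prime ∧ p ≤ y := by
  simp only [pr, mem_filter, mem_Ioc]
  constructor
  · rintro ⟨⟨_, h⟩, hp⟩
    exact ⟨hp, h⟩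
  · rintro ⟨hp, h⟩
    exact ⟨⟨hp.pos, h⟩, hp⟩

/-- the combinatorial Rankin inequality -/
theorem comb (P : Finset ℕ) : ∀ (D : Finset ℕ → ℝ) (x w : ℕ → ℝ), (∀ S, 0 ≤ D S) →
    (∀ S p, p ∉ S → p ∈ P → S ⊆ P → D (insert p S) ≤ 2 * D S) →
    (∀ p ∈ P, 0 ≤ x p) → (∀ p ∈ P, 0 ≤ w p) →
    ∑ S ∈ P.powerset, D S * ∏ p ∈ S, (x p + w p) ≤
      (∏ p ∈ P, (1 + 2 * w p)) * ∑ S ∈ P.powerset, D S * ∏ p ∈ S, x p := by
  induction P using Finset.induction_on with
  | empty => intro D x w _ _ _ _; simp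
  | insert q P hq ih =>
    intro D x w hD h2 hx hw
    rw [sum_powerset_insert hq, sum_powerset_insert hq, prod_insert hq]
    have hxq : 0 ≤ x q := hx q (mem_insert_self _ _)
    have hwq : 0 ≤ w q := hw q (mem_insert_self _ _)
    have hx' : ∀ p ∈ P, 0 ≤ x p := fun p hp => hx p (mem_insert_of_mem hp)
    have hw' : ∀ p ∈ P, 0 ≤ w p := fun p hp => hw p (mem_insert_of_mem hp)
    have key := ih (fun S => D S + D (insert q S) * (x q + w q)) x w
      (fun S => add_nonneg (hD _) (mul_nonneg (hD _) (add_nonneg hxq hwq)))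
      (by
        intro S p hpS hpP hSP
        have hpq : p ≠ q := by
          rintro rfl
          exact hq hpP
        have h3 := h2 S p hpS (mem_insert_of_mem hpP) (hSP.trans (subset_insert _ _))
        have h4 := h2 (insert q S) p (by simp [hpq, hpS]) (mem_insert_of_mem hpP)
          (insert_subset_insert _ hSP)
        have h5 : insert q (insert p S) = insert p (insert q S) := Finset.insert_comm _ _ _
        simp only [h5]
        nlinarith [mul_le_mul_of_nonneg_right h4 (add_nonneg hxq hwq)])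
      hx' hw'
    have e1 : ∑ t ∈ P.powerset, D t * ∏ p ∈ t, (x p + w p)
        + ∑ t ∈ P.powerset, D (insert q t) * ∏ p ∈ insert q t, (x p + w p)
        = ∑ S ∈ P.powerset, (D S + D (insert q S) * (x q + w q)) * ∏ p ∈ S, (x p + w p) := by
      rw [← sum_add_distrib]
      refine sum_congr rfl fun S hS => ?_
      have hqS : q ∉ S := fun h => hq (mem_powerset.1 hS h)
      rw [prod_insert hqS]
      ring
    rw [e1]
    refine key.trans ?_
    have hprod : 0 ≤ ∏ p ∈ P, (1 + 2 * w p) :=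
      prod_nonneg fun p hp => by have := hw' p hp; linarith
    have e2 : ∑ S ∈ P.powerset, (D S + D (insert q S) * (x q + w q)) * ∏ p ∈ S, x p ≤
        (1 + 2 * w q) * (∑ t ∈ P.powerset, D t * ∏ p ∈ t, x p
          + ∑ t ∈ P.powerset, D (insert q t) * ∏ p ∈ insert q t, x p) := by
      rw [← sum_add_distrib, mul_sum]
      refine sum_le_sum fun S hS => ?_
      have hSP := mem_powerset.1 hS
      have hqS : q ∉ S := fun h => hq (hSP h)
      have hX : 0 ≤ ∏ p ∈ S, x p := prod_nonneg fun p hp => hx' p (hSP hp)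
      rw [prod_insert hqS]
      have h3 := h2 S q hqS (mem_insert_self _ _) (hSP.trans (subset_insert _ _))
      have h6 : D S + D (insert q S) * (x q + w q)
          ≤ (1 + 2 * w q) * (D S + D (insert q S) * x q) := by
        have h7 := mul_le_mul_of_nonneg_right h3 hwq
        have h8 : 0 ≤ 2 * w q * (D (insert q S) * x q) :=
          mul_nonneg (by linarith) (mul_nonneg (hD _) hxq)
        nlinarith
      calc (D S + D (insert q S) * (x q + w q)) * ∏ p ∈ S, x p
          ≤ ((1 + 2 * w q) * (D S + D (insert q S) * x q)) * ∏ p ∈ S, x p :=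
            mul_le_mul_of_nonneg_right h6 hX
        _ = _ := by ring
    calc (∏ p ∈ P, (1 + 2 * w p)) *
          ∑ S ∈ P.powerset, (D S + D (insert q S) * (x q + w q)) * ∏ p ∈ S, x p
        ≤ (∏ p ∈ P, (1 + 2 * w p)) * ((1 + 2 * w q) * (∑ t ∈ P.powerset, D t * ∏ p ∈ t, x p
          + ∑ t ∈ P.powerset, D (insert q t) * ∏ p ∈ insert q t, x p)) :=
          mul_le_mul_of_nonneg_left e2 hprod
      _ = _ := by ring

theorem prod_mem_div {y : ℕ} {S : Finset ℕ} (hS : S ⊆ pr 0 y) :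
    (∏ p ∈ S, p) ∈ (PP y).divisors := by
  rw [Nat.mem_divisors]
  exact ⟨prod_dvd_prod_of_subset _ _ _ hS, prod_ne_zero_iff.2 fun p hp => (pr_prime hp).ne_zero⟩

theorem primeFactors_PP (y : ℕ) : (PP y).primeFactors = pr 0 y := by
  unfold PP
  exact Nat.primeFactors_prod fun p hp => pr_prime hp

theorem dvd_PP {y v : ℕ} (hv : Squarefree v) (h : v.primeFactors ⊆ pr 0 y) : v ∣ PP y := by
  rw [← Nat.prod_primeFactors_of_squarefree hv]
  exact prod_dvd_prod_of_subset _ _ _ h

theorem squarefree_of_dvd {y v : ℕ} (h : v ∣ PP y) : Squarefree v := by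
  refine Squarefree.squarefree_of_dvd h ?_
  unfold PP
  refine Finset.squarefree_prod_of_pairwise_isCoprime (fun p hp q hq hpq ↦ ?_) ?_
  · exact Nat.coprime_iff_isRelPrime.1 ((Nat.coprime_primes (pr_prime hp) (pr_prime hq)).2 hpq)
  · intro p hp
    exact (pr_prime hp).prime.squarefree

theorem PP_ne_zero (b : ℕ) : PP b ≠ 0 :=
  prod_ne_zero_iff.2 fun _ hp => (pr_prime hp).ne_zero

theorem sum_div (y : ℕ) (f : ℕ → ℝ) :
    ∑ n ∈ (PP y).divisors, f n = ∑ S ∈ (pr 0 y).powerset, f (∏ p ∈ S, p) := by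
  symm
  refine Finset.sum_bij (fun S _ => ∏ p ∈ S, p) ?_ ?_ ?_ ?_
  · intro S hS
    exact prod_mem_div (mem_powerset.1 hS)
  · intro S hS T hT h
    have h1 := Nat.primeFactors_prod (s := S) fun p hp => pr_prime (mem_powerset.1 hS hp)
    have h2 := Nat.primeFactors_prod (s := T) fun p hp => pr_prime (mem_powerset.1 hT hp)
    rw [← h1, ← h2, h]
  · intro n hn
    have hn' := Nat.dvd_of_mem_divisors hn
    refine ⟨n.primeFactors, ?_, Nat.prod_primeFactors_of_squarefree (squarefree_of_dvd hn')⟩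
    rw [mem_powerset, ← primeFactors_PP]
    exact Nat.primeFactors_mono hn' (PP_ne_zero y)
  · intro S _
    rfl

theorem rankin (hD : GDDM) (y : ℕ) (β : ℝ) (hβ : 0 ≤ β) :
    ∑ v ∈ (PP y).divisors, (DD v : ℝ) * (v : ℝ) ^ (β - 1) ≤
      (∏ p ∈ pr 0 y, (1 + 2 * (((p : ℝ) ^ β - 1) / p))) *
        ∑ m ∈ (PP y).divisors, (DD m : ℝ) / m := by
  rw [sum_div, sum_div]
  have h := comb (pr 0 y) (fun S => (DD (∏ p ∈ S, p) : ℝ)) (fun p => 1 / (p : ℝ))
    (fun p => ((p : ℝ) ^ β - 1) / p) (fun S => Nat.cast_nonneg _)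
    (by
      intro S p hpS hpP hSP
      have hp := pr_prime hpP
      have h0 : (∏ p ∈ S, p) ≠ 0 := prod_ne_zero_iff.2 fun p hp => (pr_prime (hSP hp)).ne_zero
      have h1 := hD.2.1 p (∏ p ∈ S, p) hp.ne_zero h0
      have h2 : p.divisors.card = 2 := by
        rw [hp.divisors, card_pair hp.one_lt.ne]
      rw [h2] at h1
      simp only [prod_insert hpS]
      exact_mod_cast h1)
    (fun p _ => by positivity)
    (fun p hp => by
      have h1 : (1 : ℝ) ≤ p := by exact_mod_cast (pr_prime hp).one_lt.le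
      have h2 : 1 ≤ (p : ℝ) ^ β := Real.one_le_rpow h1 hβ
      exact div_nonneg (by linarith) (by linarith))
  have e1 : ∀ S ∈ (pr 0 y).powerset, (DD (∏ p ∈ S, p) : ℝ) * ((∏ p ∈ S, p : ℕ) : ℝ) ^ (β - 1)
      = (DD (∏ p ∈ S, p) : ℝ) * ∏ p ∈ S, (1 / (p : ℝ) + ((p : ℝ) ^ β - 1) / p) := by
    intro S hS
    congr 1
    rw [Nat.cast_prod, ← Real.finsetProd_rpow _ _ (fun p _ => Nat.cast_nonneg p)]
    refine prod_congr rfl fun p hp => ?_
    have hp' : 0 < (p : ℝ) := by exact_mod_cast (pr_prime (mem_powerset.1 hS hp)).pos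
    rw [Real.rpow_sub hp', Real.rpow_one]
    ring
  have e2 : ∀ S ∈ (pr 0 y).powerset, (DD (∏ p ∈ S, p) : ℝ) / ((∏ p ∈ S, p : ℕ) : ℝ)
      = (DD (∏ p ∈ S, p) : ℝ) * ∏ p ∈ S, (1 / (p : ℝ)) := by
    intro S _
    rw [Nat.cast_prod, prod_div_distrib, prod_const_one]
    ring
  rw [sum_congr rfl e1, sum_congr rfl e2]
  exact h

open Classical in
theorem split (hD : GDDM) (y z : ℕ) (β : ℝ) :
    ∑ b ∈ (Icc 1 z).filter (Smooth y), (DD b : ℝ) * (b : ℝ) ^ (β - 1) ≤
      (∑ m ∈ Icc 1 z, ((m ^ 2).divisors.card : ℝ) * ((m : ℝ) ^ 2) ^ (β - 1)) *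
        ∑ v ∈ (PP y).divisors, (DD v : ℝ) * (v : ℝ) ^ (β - 1) := by
  choose a m h1 h2 using Nat.sq_mul_squarefree
  rw [sum_mul_sum, ← sum_product']
  have hmem : ∀ b ∈ (Icc 1 z).filter (Smooth y), (m b, a b) ∈ (Icc 1 z) ×ˢ (PP y).divisors := by
    intro b hb
    rw [mem_filter, mem_Icc] at hb
    obtain ⟨⟨hb1, hbz⟩, hs⟩ := hb
    have hb' := h1 b
    have hm0 : m b ≠ 0 := by
      intro h
      rw [h] at hb'
      simp at hb'
      omega
    have ha0 : a b ≠ 0 := by
      intro h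
      rw [h] at hb'
      simp at hb'
      omega
    rw [mem_product, mem_Icc, Nat.mem_divisors]
    refine ⟨⟨Nat.one_le_iff_ne_zero.2 hm0, ?_⟩, dvd_PP (h2 b) ?_, PP_ne_zero y⟩
    · calc m b ≤ m b ^ 2 := Nat.le_self_pow (by norm_num) _
        _ ≤ m b ^ 2 * a b := Nat.le_mul_of_pos_right _ (Nat.pos_of_ne_zero ha0)
        _ = b := hb'
        _ ≤ z := hbz
    · intro p hp
      rw [mem_pr0]
      have hpp := Nat.prime_of_mem_primeFactors hp
      refine ⟨hpp, hs p hpp ?_⟩
      rw [← hb']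
      exact (Nat.dvd_of_mem_primeFactors hp).mul_left _
  have hinj : Set.InjOn (fun b => (m b, a b)) ((Icc 1 z).filter (Smooth y) : Finset ℕ) := by
    intro b _ c _ h
    simp only [Prod.mk.injEq] at h
    rw [← h1 b, ← h1 c, h.1, h.2]
  calc ∑ b ∈ (Icc 1 z).filter (Smooth y), (DD b : ℝ) * (b : ℝ) ^ (β - 1)
      ≤ ∑ b ∈ (Icc 1 z).filter (Smooth y),
          (((m b ^ 2).divisors.card : ℝ) * ((m b : ℝ) ^ 2) ^ (β - 1)) *
            ((DD (a b) : ℝ) * (a b : ℝ) ^ (β - 1)) := by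
        refine sum_le_sum fun b hb => ?_
        have hmb := hmem b hb
        rw [mem_product, mem_Icc, Nat.mem_divisors] at hmb
        obtain ⟨⟨hm1, -⟩, hav, hPP⟩ := hmb
        have ha0 : a b ≠ 0 := fun h => by
          rw [h] at hav
          exact hPP (zero_dvd_iff.1 hav)
        have h3 := hD.2.1 (m b ^ 2) (a b) (pow_ne_zero _ (by omega)) ha0
        rw [h1 b] at h3
        have h4 : (DD b : ℝ) ≤ ((m b ^ 2).divisors.card : ℝ) * (DD (a b) : ℝ) := by
          exact_mod_cast h3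
        have h5 : (b : ℝ) ^ (β - 1) = ((m b : ℝ) ^ 2) ^ (β - 1) * (a b : ℝ) ^ (β - 1) := by
          rw [← Real.mul_rpow (by positivity) (by positivity)]
          congr 1
          exact_mod_cast (h1 b).symm
        rw [h5]
        calc (DD b : ℝ) * (((m b : ℝ) ^ 2) ^ (β - 1) * (a b : ℝ) ^ (β - 1))
            ≤ (((m b ^ 2).divisors.card : ℝ) * (DD (a b) : ℝ)) *
              (((m b : ℝ) ^ 2) ^ (β - 1) * (a b : ℝ) ^ (β - 1)) :=
              mul_le_mul_of_nonneg_right h4 (by positivity)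
          _ = _ := by ring
    _ = ∑ x ∈ ((Icc 1 z).filter (Smooth y)).image (fun b => (m b, a b)),
          (((x.1 ^ 2).divisors.card : ℝ) * ((x.1 : ℝ) ^ 2) ^ (β - 1)) *
            ((DD x.2 : ℝ) * (x.2 : ℝ) ^ (β - 1)) := by
        rw [sum_image hinj]
    _ ≤ ∑ x ∈ (Icc 1 z) ×ˢ (PP y).divisors,
          (((x.1 ^ 2).divisors.card : ℝ) * ((x.1 : ℝ) ^ 2) ^ (β - 1)) *
            ((DD x.2 : ℝ) * (x.2 : ℝ) ^ (β - 1)) := by
        refine sum_le_sum_of_subset_of_nonneg ?_ fun x _ _ => by positivity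
        intro x hx
        obtain ⟨b, hb, rfl⟩ := mem_image.1 hx
        exact hmem b hb

/-- the sum over the square part -/
theorem square_part : ∃ K : ℝ, 0 < K ∧ ∀ (z : ℕ) (β : ℝ), β ≤ 1 / 8 →
    ∑ m ∈ Icc 1 z, ((m ^ 2).divisors.card : ℝ) * ((m : ℝ) ^ 2) ^ (β - 1) ≤ K := by
  obtain ⟨C1, hC1, hdiv⟩ := Pool.Agent.Helper92.Field.divisor_bound (ε := 1 / 4) (by norm_num)
  have hsum : Summable fun n : ℕ => (n : ℝ) ^ (-(5 / 4 : ℝ)) :=
    Real.summable_nat_rpow.2 (by norm_num)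
  refine ⟨C1 * (∑' n : ℕ, (n : ℝ) ^ (-(5 / 4 : ℝ)) + 1), ?_, ?_⟩
  · have : 0 ≤ ∑' n : ℕ, (n : ℝ) ^ (-(5 / 4 : ℝ)) := tsum_nonneg fun n => by positivity
    positivity
  intro z β hβ
  calc ∑ m ∈ Icc 1 z, ((m ^ 2).divisors.card : ℝ) * ((m : ℝ) ^ 2) ^ (β - 1)
      ≤ ∑ m ∈ Icc 1 z, C1 * (m : ℝ) ^ (-(5 / 4 : ℝ)) := by
        refine sum_le_sum fun m hm => ?_
        have hm1 := (mem_Icc.1 hm).1
        have hm0 : 0 < (m : ℝ) := by exact_mod_cast hm1
        have h1 := hdiv (m ^ 2) (pow_ne_zero _ (by omega))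
        rw [Nat.cast_pow] at h1
        have h3 : (1 : ℝ) ≤ (m : ℝ) ^ 2 := by
          have : (1 : ℝ) ≤ m := by exact_mod_cast hm1
          nlinarith
        have h2 : ((m : ℝ) ^ 2) ^ (β - 1) ≤ ((m : ℝ) ^ 2) ^ (1 / 8 - 1 : ℝ) :=
          Real.rpow_le_rpow_of_exponent_le h3 (by linarith)
        calc ((m ^ 2).divisors.card : ℝ) * ((m : ℝ) ^ 2) ^ (β - 1)
            ≤ (C1 * ((m : ℝ) ^ 2) ^ (1 / 4 : ℝ)) * ((m : ℝ) ^ 2) ^ (1 / 8 - 1 : ℝ) :=
              mul_le_mul h1 h2 (by positivity) (by positivity)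
          _ = C1 * (m : ℝ) ^ (-(5 / 4 : ℝ)) := by
              rw [mul_assoc, ← Real.rpow_add (by positivity), ← Real.rpow_natCast (m : ℝ) 2,
                ← Real.rpow_mul hm0.le]
              norm_num
    _ = C1 * ∑ m ∈ Icc 1 z, (m : ℝ) ^ (-(5 / 4 : ℝ)) := by rw [mul_sum]
    _ ≤ C1 * ∑' n : ℕ, (n : ℝ) ^ (-(5 / 4 : ℝ)) :=
        mul_le_mul_of_nonneg_left (hsum.sum_le_tsum _ fun n _ => by positivity) hC1.le
    _ ≤ _ := mul_le_mul_of_nonneg_left (by linarith) hC1.le

theorem DD_le (hN : GDDNQ) {q n : ℕ} (hq : 1 ≤ q) (hn : n ≠ 0) :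
    (DD n : ℝ) ≤ (NQ q n : ℝ) ^ (1 / (q : ℝ)) := by
  have h1 := hN q n hq hn
  have h2 : ((DD n : ℝ)) ^ q ≤ (NQ q n : ℝ) := by exact_mod_cast h1
  calc (DD n : ℝ) = ((DD n : ℝ) ^ q) ^ (1 / (q : ℝ)) := by
        rw [one_div, Real.pow_rpow_inv_natCast (Nat.cast_nonneg _) (by omega)]
    _ ≤ _ := Real.rpow_le_rpow (by positivity) h2 (by positivity)

theorem V_pos (b : ℕ) : 0 < V b := by
  unfold V
  apply prod_pos
  intro p hp
  have : 0 < (p : ℝ) := by exact_mod_cast (pr_prime hp).pos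
  positivity

end RankAux

open RankAux

theorem rank : GDDM → GDDNQ → GMer → GMom → GRank := by
  intro hD hN hMer hMom lam η hlam hη
  obtain ⟨CM, hCM, hV, hL, -⟩ := hMer
  obtain ⟨K, hK, hsq⟩ := square_part
  -- the exponent q
  obtain ⟨q, hq⟩ := exists_nat_ge (2 / η + 2)
  have hq2 : 2 ≤ q := by
    have : (2 : ℝ) ≤ q := le_trans (by have : 0 < 2 / η := by positivity
                                       linarith) hq
    exact_mod_cast this
  have hq0 : (0 : ℝ) < q := by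
    have : (2 : ℝ) ≤ q := by exact_mod_cast hq2
    linarith
  have hqη : 2 / (q : ℝ) ≤ η := by
    rw [div_le_iff₀ hq0]
    have h1 : 2 / η ≤ q := by linarith
    rw [div_le_iff₀ hη] at h1
    linarith
  obtain ⟨C2, hC2, hF⟩ := hMom q hq2
  obtain ⟨y1, hy1⟩ := exists_nat_ge (Real.exp (8 * lam))
  refine ⟨K * (Real.exp (2 * CM * (Real.exp lam - 1)) * (C2 * CM ^ (1 + 2 / (q : ℝ)))),
    max 3 y1, by positivity, le_trans (by norm_num) (le_max_left _ _), ?_⟩
  intro y z hy β hβ0 hβ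
  have hy3 : 3 ≤ y := le_trans (le_max_left _ _) hy
  have hyy : y1 ≤ y := le_trans (le_max_right _ _) hy
  have hyR : (3 : ℝ) ≤ y := by exact_mod_cast hy3
  have hlog1 : 1 ≤ Real.log y := by
    rw [Real.le_log_iff_exp_le (by linarith)]
    exact le_trans Real.exp_one_lt_three.le hyR
  have hlog0 : 0 < Real.log y := by linarith
  have hlog8 : 8 * lam ≤ Real.log y := by
    rw [Real.le_log_iff_exp_le (by linarith)]
    exact le_trans hy1 (by exact_mod_cast hyy)
  have hβ8 : β ≤ 1 / 8 := by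
    refine hβ.trans ?_
    rw [div_le_iff₀ hlog0]
    linarith
  have hexp : 0 ≤ Real.exp lam - 1 := by
    have := Real.add_one_le_exp lam
    linarith
  -- first bracket
  have hprod : ∏ p ∈ pr 0 y, (1 + 2 * (((p : ℝ) ^ β - 1) / p))
      ≤ Real.exp (2 * CM * (Real.exp lam - 1)) := by
    have hw : ∀ p ∈ pr 0 y, 0 ≤ ((p : ℝ) ^ β - 1) / p := by
      intro p hp
      have h1 : (1 : ℝ) ≤ p := by exact_mod_cast (pr_prime hp).one_lt.le
      have h2 : 1 ≤ (p : ℝ) ^ β := Real.one_le_rpow h1 hβ0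
      exact div_nonneg (by linarith) (by linarith)
    calc ∏ p ∈ pr 0 y, (1 + 2 * (((p : ℝ) ^ β - 1) / p))
        ≤ ∏ p ∈ pr 0 y, Real.exp (2 * (((p : ℝ) ^ β - 1) / p)) := by
          refine prod_le_prod (fun p hp => ?_) fun p _ => ?_
          · have := hw p hp
            linarith
          · have := Real.add_one_le_exp (2 * (((p : ℝ) ^ β - 1) / p))
            linarith
      _ = Real.exp (∑ p ∈ pr 0 y, 2 * (((p : ℝ) ^ β - 1) / p)) := by rw [Real.exp_sum]
      _ ≤ Real.exp (2 * CM * (Real.exp lam - 1)) := by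
          rw [Real.exp_le_exp]
          calc ∑ p ∈ pr 0 y, 2 * (((p : ℝ) ^ β - 1) / p)
              ≤ ∑ p ∈ pr 0 y, (2 * (Real.exp lam - 1) / Real.log y) * (Real.log p / p) := by
                refine sum_le_sum fun p hp => ?_
                obtain ⟨hpp, hpy⟩ := mem_pr0.1 hp
                have hp1 : (1 : ℝ) ≤ p := by exact_mod_cast hpp.one_lt.le
                have hp0 : (0 : ℝ) < p := by linarith
                have hlp : 0 ≤ Real.log p := Real.log_nonneg hp1
                have hlpy : Real.log p ≤ Real.log y :=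
                  Real.log_le_log hp0 (by exact_mod_cast hpy)
                set t : ℝ := Real.log p / Real.log y with ht
                have ht0 : 0 ≤ t := div_nonneg hlp hlog0.le
                have ht1 : t ≤ 1 := by
                  rw [ht, div_le_one hlog0]
                  exact hlpy
                have h1 : (p : ℝ) ^ β ≤ Real.exp (t * lam) := by
                  rw [Real.rpow_def_of_pos hp0, Real.exp_le_exp]
                  calc Real.log p * β ≤ Real.log p * (lam / Real.log y) :=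
                        mul_le_mul_of_nonneg_left hβ hlp
                    _ = t * lam := by rw [ht]; ring
                have h2 : Real.exp (t * lam) ≤ (1 - t) * 1 + t * Real.exp lam := by
                  have hc := convexOn_exp.2 (Set.mem_univ (0 : ℝ)) (Set.mem_univ lam)
                    (sub_nonneg.2 ht1) ht0 (by ring)
                  simpa using hc
                have h3 : (p : ℝ) ^ β - 1 ≤ t * (Real.exp lam - 1) := by linarith
                calc 2 * (((p : ℝ) ^ β - 1) / p)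
                    ≤ 2 * ((t * (Real.exp lam - 1)) / p) := by
                      have := div_le_div_of_nonneg_right h3 hp0.le
                      linarith
                  _ = _ := by
                      rw [ht]
                      field_simp
            _ = (2 * (Real.exp lam - 1) / Real.log y) * ∑ p ∈ pr 0 y, Real.log p / p := by
                rw [mul_sum]
            _ ≤ (2 * (Real.exp lam - 1) / Real.log y) * (CM * Real.log y) :=
                mul_le_mul_of_nonneg_left (hL y (by omega))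
                  (div_nonneg (by linarith) hlog0.le)
            _ = 2 * CM * (Real.exp lam - 1) := by
                field_simp
  -- second bracket
  have hsecond : ∑ m ∈ (PP y).divisors, (DD m : ℝ) / m
      ≤ C2 * CM ^ (1 + 2 / (q : ℝ)) * Real.log y ^ (1 + η) := by
    calc ∑ m ∈ (PP y).divisors, (DD m : ℝ) / m ≤ F q y := by
          unfold F
          refine sum_le_sum fun m hm => ?_
          have hm0 : m ≠ 0 := (Nat.pos_of_mem_divisors hm).ne'
          exact div_le_div_of_nonneg_right (DD_le hN (by omega) hm0) (Nat.cast_nonneg _)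
      _ ≤ C2 * V y ^ (1 + 2 / (q : ℝ)) := hF y (by omega)
      _ ≤ C2 * (CM * Real.log y) ^ (1 + 2 / (q : ℝ)) := by
          refine mul_le_mul_of_nonneg_left ?_ hC2.le
          exact Real.rpow_le_rpow (V_pos y).le (hV y (by omega)) (by positivity)
      _ = C2 * CM ^ (1 + 2 / (q : ℝ)) * Real.log y ^ (1 + 2 / (q : ℝ)) := by
          rw [Real.mul_rpow (by linarith) hlog0.le]
          ring
      _ ≤ C2 * CM ^ (1 + 2 / (q : ℝ)) * Real.log y ^ (1 + η) := by
          refine mul_le_mul_of_nonneg_left ?_ (by positivity)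
          exact Real.rpow_le_rpow_of_exponent_le hlog1 (by linarith)
  have hA := rankin hD y β hβ0
  have hsec0 : 0 ≤ ∑ m ∈ (PP y).divisors, (DD m : ℝ) / m := sum_nonneg fun m _ => by positivity
  have hA2 : ∑ v ∈ (PP y).divisors, (DD v : ℝ) * (v : ℝ) ^ (β - 1) ≤
      Real.exp (2 * CM * (Real.exp lam - 1)) *
        (C2 * CM ^ (1 + 2 / (q : ℝ)) * Real.log y ^ (1 + η)) :=
    hA.trans (mul_le_mul hprod hsecond hsec0 (Real.exp_nonneg _))
  have hA0 : 0 ≤ ∑ v ∈ (PP y).divisors, (DD v : ℝ) * (v : ℝ) ^ (β - 1) :=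
    sum_nonneg fun m _ => by positivity
  refine (split hD y z β).trans ?_
  calc (∑ m ∈ Icc 1 z, ((m ^ 2).divisors.card : ℝ) * ((m : ℝ) ^ 2) ^ (β - 1)) *
        ∑ v ∈ (PP y).divisors, (DD v : ℝ) * (v : ℝ) ^ (β - 1)
      ≤ K * (Real.exp (2 * CM * (Real.exp lam - 1)) *
        (C2 * CM ^ (1 + 2 / (q : ℝ)) * Real.log y ^ (1 + η))) :=
        mul_le_mul (hsq z β hβ8) hA2 hA0 hK.le
    _ = _ := by ring

end Pool.Agent.Helper98.Lang
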